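import Mathlib
import Pool.Agent.H88.Tur4
import Pool.Agent.H88.TurDefs

open Pool.Agent.H88.Tur Polynomial

theorem Pool.Agent.Results.MP_d240f8_an.Sharp.result (m : ℕ) (hm : 3 ≤ m) :
    Cn (2 * m + 1) = nrm (d2 (Q m)) / nrm (Q m) ∧
    (∀ P ∈ Cls (2 * m + 1), nrm (d2 P) = Cn (2 * m + 1) * nrm P ↔
      ∃ a : ℝ, a ≠ 0 ∧ (P = C a * Q m ∨ P = C a * Qr m)) ∧
    ∃ ξ : ℝ, (∀ x : ℝ, (1 / (2 * m + 1) ≤ x ∧ x ≤ 1 / (2 * m - 1) ∧ cub (2 * m + 1) x = 0) ↔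
      x = ξ) ∧ Cn (2 * m + 1) = val m ξ := by
  obtain ⟨k, rfl⟩ : ∃ k, m = k + 3 := ⟨m - 3, by omega⟩
  obtain ⟨ξ, h0, h1, hc, hg, hmax⟩ := exists_xi k
  have hk : (0 : ℝ) ≤ k := Nat.cast_nonneg _
  have hg0 : 0 < g k ξ := by linarith
  have hq := q0_pos k
  have hn : 2 * (k + 3) + 1 = 2 * k + 7 := by ring
  have hQ := Q_mem (k + 3)
  rw [hn] at hQ ⊢
  set M := (2 * k + 6) * g k ξ / q0 k with hM
  have hM0 : 0 < M := by positivity
  have hp : (0 : ℝ) < 1 / (2 * k + 7) := by positivity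
  have hξ : ξ ∈ Set.Icc (-1 : ℝ) 1 := ⟨by linarith, h1.trans (by
    rw [div_le_one (by positivity)]; linarith)⟩
  have habs : ∀ x, |(d2 (Q (k + 3))).eval x| = (2 * k + 6) * |g k x| := fun x => by
    rw [d2Q, abs_mul, abs_neg, abs_of_pos (by positivity)]
  have hd : nrm (d2 (Q (k + 3))) = M * q0 k := by
    rw [nrm_eq _ hξ, habs, abs_of_pos hg0, hM]
    · field_simp
    · intro y hy
      rw [habs, habs, abs_of_pos hg0]
      exact mul_le_mul_of_nonneg_left (hmax y hy) (by positivity)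
  have hnQ : nrm (Q (k + 3)) = q0 k := by
    refine le_antisymm ?_ ?_
    · have := (main k h0 h1 hg0 hQ).1
      rw [← hM, hd] at this
      exact le_of_mul_le_mul_left this hM0
    · have := le_nrm (Q (k + 3)) (x := 1 / (2 * k + 7)) ⟨by linarith, h0.trans hξ.2⟩
      rw [Q_eval, abs_of_pos hq] at this
      exact this
  have hr : nrm (d2 (Q (k + 3))) / nrm (Q (k + 3)) = M := by
    rw [hd, hnQ]; field_simp
  have hC : Cn (2 * k + 7) = M := by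
    refine IsLeast.csInf_eq ⟨⟨_, hQ, hr⟩, ?_⟩
    rintro _ ⟨P, hP, rfl⟩
    exact (le_div_iff₀ (nrm_pos (factor hP).1)).2 (main k h0 h1 hg0 hP).1
  refine ⟨hC.trans hr.symm, fun P hP => ⟨fun h => (main k h0 h1 hg0 hP).2 (by
    rw [h, hC]), ?_⟩, ξ, fun x => ?_, ?_⟩
  · have hdC : ∀ (c : ℝ) (p : ℝ[X]), d2 (C c * p) = C c * d2 p := fun c p => by
      simp only [d2, derivative_C_mul]
    have hQr : Qr (k + 3) = (Q (k + 3)).comp (C (-1) * X + C 0) := by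
      simp [Q, Qr, sub_eq_add_neg]
    rintro ⟨a, -, rfl | rfl⟩
    · rw [nrm_of_eq (P := C a * Q (k + 3)) (R := Q (k + 3)) (abs_nonneg a) 1
        (Or.inl rfl) (fun x => by
        rw [eval_mul, eval_C, abs_mul, one_mul]),
        nrm_of_eq (P := d2 (C a * Q (k + 3))) (R := d2 (Q (k + 3))) (abs_nonneg a) 1
        (Or.inl rfl) (fun x => by
        rw [hdC, eval_mul, eval_C, abs_mul, one_mul]), hC, hd, hnQ]
      ring
    · rw [nrm_of_eq (P := C a * Qr (k + 3)) (R := Q (k + 3)) (abs_nonneg a) (-1)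
        (Or.inr rfl) (fun x => by
        rw [eval_mul, eval_C, abs_mul, hQr, eval_comp]; simp),
        nrm_of_eq (P := d2 (C a * Qr (k + 3))) (R := d2 (Q (k + 3))) (abs_nonneg a) (-1)
        (Or.inr rfl) (fun x => by
        rw [hdC, eval_mul, eval_C, abs_mul, hQr, d2_comp]; simp), hC, hd, hnQ]
      ring
  · have e1 : (2 * ((k + 3 : ℕ) : ℝ) + 1) = 2 * k + 7 := by push_cast; ring
    have e2 : (2 * ((k + 3 : ℕ) : ℝ) - 1) = 2 * k + 5 := by push_cast; ring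
    rw [e1, e2]
    exact ⟨fun h => cub_unique k h.1 h.2.1 h0 h1 h.2.2 hc, fun h => h ▸ ⟨h0, h1, hc⟩⟩
  · have e1 : (2 * ((k + 3 : ℕ) : ℝ) + 1) = 2 * k + 7 := by push_cast; ring
    have e2 : (2 * ((k + 3 : ℕ) : ℝ)) = 2 * k + 6 := by push_cast; ring
    rw [hC, hM, val, e1, e2]
    rfl
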